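import Pool.Agent.Helper774.CSTS.Count

set_option autoImplicit false

namespace Pool.Agent.Results.MP_72c5f4_co.CyclicCountGrowth

open Pool.Agent.Helper774.CSTS

/-- The number `C n` of isomorphism classes of cyclic Steiner triple systems of order `n` tends to
infinity through all `n ≡ 1, 3 (mod 6)`; in fact it grows exponentially,
`C n ≥ 2 ^ ⌊n/6⌋ / n ^ (⌊log₂ n⌋ + 2)` for every such `n ≥ 60` and `C n ≥ 2 ^ (⌊n/12⌋ - 1)` for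
every such `n ≥ 4096`. -/
theorem result :
    (∀ M : ℕ, ∃ N : ℕ, ∀ n : ℕ, N ≤ n → (n % 6 = 1 ∨ n % 6 = 3) → M ≤ C n) ∧
    (∀ n : ℕ, 60 ≤ n → (n % 6 = 1 ∨ n % 6 = 3) →
      2 ^ (n / 6) ≤ C n * n ^ (Nat.log 2 n + 2)) ∧
    (∀ n : ℕ, 4096 ≤ n → (n % 6 = 1 ∨ n % 6 = 3) → 2 ^ (n / 12 - 1) ≤ C n) :=
  ⟨toInf, lower, lower2⟩

end Pool.Agent.Results.MP_72c5f4_co.CyclicCountGrowth
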